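import Pool.Agent.Q260.DJ.Den

/-!
# Project DJ / DD2 (helper260), job CP: comparison of the zero counts
-/

set_option autoImplicit false

namespace Pool.Agent.Q177.DJ

open Complex Filter Topology
open Pool.Agent.H24R2.JP (HH XX FF xi)
open Pool.Agent.H24R2.JP.Zer (XX_eq)
open Pool.Agent.Q260.DJ
open Pool.Agent.Q285.DJ (fin_zeros log_small)

/-- zeros in the quarter plane up to the height `T` -/
def zs (G : ℂ → ℂ) (a T : ℝ) : Set ℂ := {z : ℂ | G z = 0 ∧ a ≤ z.re ∧ 0 < z.im ∧ z.im ≤ T}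

/-- their number -/
noncomputable def cn (G : ℂ → ℂ) (a T : ℝ) : ℕ := ∑ᶠ z ∈ zs G a T, analyticOrderNatAt G z

/-- entire functions with zeros in the strip -/
structure En (G : ℂ → ℂ) : Prop where
  diff : Differentiable ℂ G
  strip : ∀ z, G z = 0 → |z.re| ≤ 1 / 2

theorem En.one {G : ℂ → ℂ} (h : En G) : G 1 ≠ 0 := by
  intro h0
  have := h.strip 1 h0
  rw [Complex.one_re, abs_one] at this
  norm_num at this

theorem En.fin {G : ℂ → ℂ} (h : En G) (a T : ℝ) : (zs G a T).Finite := by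
  have hK : IsCompact (Set.Icc (-(1 / 2) : ℝ) (1 / 2) ×ℂ Set.Icc 0 T) :=
    isCompact_Icc.reProdIm isCompact_Icc
  refine (fin_zeros h.diff h.one hK).subset ?_
  rintro z ⟨h1, h2, h3, h4⟩
  refine ⟨?_, h1⟩
  rw [Complex.mem_reProdIm, Set.mem_Icc, Set.mem_Icc]
  exact ⟨abs_le.1 (h.strip z h1), h3.le, h4⟩

theorem cn_eq {G : ℂ → ℂ} (h : En G) (a T : ℝ) :
    (cn G a T : ℝ) = ∑ z ∈ (h.fin a T).toFinset, (analyticOrderNatAt G z : ℝ) := by
  unfold cn
  rw [finsum_mem_eq_finite_toFinset_sum _ (h.fin a T)]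
  push_cast
  rfl

theorem En.mult_pos {G : ℂ → ℂ} (h : En G) {z : ℂ} (hz : G z = 0) :
    1 ≤ analyticOrderNatAt G z := by
  have han := h.diff.analyticAt z
  have h1 : analyticOrderAt G z ≠ 0 := han.analyticOrderAt_ne_zero.2 hz
  have h2 : analyticOrderAt G z ≠ ⊤ := by
    intro htop
    rw [analyticOrderAt_eq_top] at htop
    have hn : AnalyticOnNhd ℂ G Set.univ := fun w _ => h.diff.analyticAt w
    have h3 := hn.eqOn_zero_of_preconnected_of_eventuallyEq_zero isPreconnected_univ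
      (Set.mem_univ z) htop
    exact h.one (h3 (Set.mem_univ 1))
  unfold analyticOrderNatAt
  rw [Nat.one_le_iff_ne_zero]
  intro h0
  rw [ENat.toNat_eq_zero] at h0
  rcases h0 with h0 | h0
  · exact h1 h0
  · exact h2 h0

theorem card_le {G : ℂ → ℂ} (h : En G) (a T : ℝ) :
    ((h.fin a T).toFinset.card : ℝ) ≤ cn G a T := by
  rw [cn_eq h, Finset.card_eq_sum_ones]
  push_cast
  refine Finset.sum_le_sum fun z hz => ?_
  rw [Set.Finite.mem_toFinset] at hz
  exact_mod_cast h.mult_pos hz.1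

theorem cn_mono {G : ℂ → ℂ} (h : En G) (a : ℝ) {T U : ℝ} (hTU : T ≤ U) :
    (cn G a T : ℝ) ≤ cn G a U := by
  rw [cn_eq h, cn_eq h]
  refine Finset.sum_le_sum_of_subset_of_nonneg (fun z hz => ?_) (fun _ _ _ => Nat.cast_nonneg _)
  rw [Set.Finite.mem_toFinset] at hz ⊢
  obtain ⟨a1, a2, a3, a4⟩ := hz
  exact ⟨a1, a2, a3, a4.trans hTU⟩

/-- a covering gives a bound for a sum (copied from `Q240/LD/Box.lean`) -/
theorem cover {ι : Type*} (Z : Finset ℂ) (m : ℂ → ℝ) (hm : ∀ z, 0 ≤ m z) (W : Finset ι)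
    (R : ℂ → ι → Prop) (B : ℝ) (hcov : ∀ z ∈ Z, ∃ w ∈ W, R z w)
    (hB : ∀ w ∈ W, ∀ Y : Finset ℂ, (∀ z ∈ Y, z ∈ Z ∧ R z w) → ∑ z ∈ Y, m z ≤ B) :
    ∑ z ∈ Z, m z ≤ W.card * B := by
  classical
  have h1 : ∀ z ∈ Z, m z ≤ ∑ w ∈ W, if R z w then m z else 0 := by
    intro z hz
    obtain ⟨w, hw, hR⟩ := hcov z hz
    refine le_trans ?_ (Finset.single_le_sum (f := fun w => if R z w then m z else 0) (fun i _ => by
      split_ifs
      · exact hm z
      · exact le_rfl) hw)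
    rw [if_pos hR]
  refine (Finset.sum_le_sum h1).trans ?_
  rw [Finset.sum_comm]
  have h2 : ∀ w ∈ W, ∑ z ∈ Z, (if R z w then m z else 0) ≤ B := by
    intro w hw
    rw [← Finset.sum_filter]
    exact hB w hw _ fun z hz => Finset.mem_filter.1 hz
  refine (Finset.sum_le_sum h2).trans ?_
  rw [Finset.sum_const, nsmul_eq_mul]

/-- the local count -/
def Loc (G : ℂ → ℂ) : Prop := ∃ C T0 : ℝ, 0 < C ∧ 3 ≤ T0 ∧ ∀ T : ℝ, T0 ≤ T →
  ∀ Z : Finset ℂ, (∀ z ∈ Z, G z = 0 ∧ 0 ≤ z.re ∧ |z.im - T| ≤ 1) →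
    ∑ z ∈ Z, (analyticOrderNatAt G z : ℝ) ≤ C * Real.log T

/-- the dictionary -/
def Dic (G G' : ℂ → ℂ) (ε : ℝ) : Prop := ∃ C T0 : ℝ, 1 ≤ C ∧ 3 ≤ T0 ∧
  ∀ (z : ℂ) (σ : ℝ), G z = 0 → T0 ≤ z.im → 0 ≤ σ → σ + ε ≤ z.re →
    ∃ w : ℂ, G' w = 0 ∧ σ < w.re ∧ |w.im - z.im| ≤ C * Real.log z.im

theorem comp_main {G G' : ℂ → ℂ} (hG : En G) (hG' : En G') (hL : Loc G) (ε : ℝ) (hε : 0 < ε)
    (hD : Dic G G' ε) : ∃ C : ℝ, 0 < C ∧ ∀ σ T : ℝ, 0 ≤ σ → 2 ≤ T →
      (cn G (σ + ε) T : ℝ) ≤ C * Real.log T ^ 2 * (cn G' σ (T + C * Real.log T) + 1) := by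
  classical
  obtain ⟨C1, T1, hC1, hT1, hloc⟩ := hL
  obtain ⟨C2, T2, hC2, hT2, hdic⟩ := hD
  obtain ⟨T3, hT3⟩ := log_small C2 1
  obtain ⟨T4, hT4⟩ : ∃ T4 : ℝ, T4 = max (T1 + 2) (max T2 T3) := ⟨_, rfl⟩
  have hT4a : T1 + 2 ≤ T4 := by rw [hT4]; exact le_max_left _ _
  have hT4b : T2 ≤ T4 := by rw [hT4]; exact (le_max_left _ _).trans (le_max_right _ _)
  have hT4c : T3 ≤ T4 := by rw [hT4]; exact (le_max_right _ _).trans (le_max_right _ _)
  obtain ⟨M, hM⟩ : ∃ M : ℝ, M = ∑ z ∈ (hG.fin 0 T4).toFinset, (analyticOrderNatAt G z : ℝ) :=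
    ⟨_, rfl⟩
  have hM0 : 0 ≤ M := by rw [hM]; positivity
  have hlog2 : 0 < Real.log 2 := Real.log_pos (by norm_num)
  obtain ⟨K1, hK1⟩ : ∃ K1 : ℝ, K1 = (2 * C2 + 2 / Real.log 2) * C1 := ⟨_, rfl⟩
  have hK10 : 0 < K1 := by rw [hK1]; positivity
  obtain ⟨C, hC⟩ : ∃ C : ℝ, C = M / Real.log 2 ^ 2 + K1 + C2 := ⟨_, rfl⟩
  have hMl : 0 ≤ M / Real.log 2 ^ 2 := by positivity
  refine ⟨C, by rw [hC]; linarith, fun σ T hσ hT => ?_⟩
  have hlogT : Real.log 2 ≤ Real.log T := Real.log_le_log (by norm_num) hT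
  have hlogTp : 0 < Real.log T := lt_of_lt_of_le hlog2 hlogT
  rw [cn_eq hG]
  have hsplit : ∑ z ∈ (hG.fin (σ + ε) T).toFinset, (analyticOrderNatAt G z : ℝ) =
      ∑ z ∈ (hG.fin (σ + ε) T).toFinset.filter (fun z => z.im ≤ T4), (analyticOrderNatAt G z : ℝ) +
      ∑ z ∈ (hG.fin (σ + ε) T).toFinset.filter (fun z => ¬ z.im ≤ T4),
        (analyticOrderNatAt G z : ℝ) :=
    (Finset.sum_filter_add_sum_filter_not _ _ _).symm
  have hlow : ∑ z ∈ (hG.fin (σ + ε) T).toFinset.filter (fun z => z.im ≤ T4),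
      (analyticOrderNatAt G z : ℝ) ≤ M := by
    rw [hM]
    refine Finset.sum_le_sum_of_subset_of_nonneg (fun z hz => ?_) (fun _ _ _ => Nat.cast_nonneg _)
    obtain ⟨h1, h2⟩ := Finset.mem_filter.1 hz
    rw [Set.Finite.mem_toFinset] at h1 ⊢
    obtain ⟨a1, a2, a3, a4⟩ := h1
    exact ⟨a1, by linarith, a3, h2⟩
  -- windows
  have hwin : ∀ (τ : ℝ) (Y : Finset ℂ), (∀ z ∈ Y, G z = 0 ∧ 0 ≤ z.re ∧ T4 < z.im ∧ z.im ≤ T ∧
      |τ - z.im| ≤ C2 * Real.log T) →
      ∑ z ∈ Y, (analyticOrderNatAt G z : ℝ) ≤ K1 * Real.log T ^ 2 := by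
    intro τ Y hY
    obtain ⟨L, hL⟩ : ∃ L : ℝ, L = C2 * Real.log T := ⟨_, rfl⟩
    have hL0 : 0 < L := by rw [hL]; positivity
    rw [← hL] at hY
    have h1 := cover Y (fun z => (analyticOrderNatAt G z : ℝ)) (fun z => Nat.cast_nonneg _)
      (Finset.range (⌈2 * L⌉₊ + 1))
      (fun z j => |z.im - (τ - L + (j : ℝ))| ≤ 1 ∧ τ - L + (j : ℝ) ≤ z.im) (C1 * Real.log T)
      (fun z hz => by
        obtain ⟨a1, a2, a3, a4, a5⟩ := hY z hz
        have a5' := abs_le.1 a5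
        have hnn : 0 ≤ z.im - (τ - L) := by linarith
        have h3 := Nat.floor_le hnn
        have h4 := Nat.lt_floor_add_one (z.im - (τ - L))
        refine ⟨⌊z.im - (τ - L)⌋₊, ?_, ?_, by linarith⟩
        · rw [Finset.mem_range]
          have h5 : ((⌊z.im - (τ - L)⌋₊ : ℕ) : ℝ) ≤ ⌈2 * L⌉₊ := by
            have := Nat.le_ceil (2 * L)
            linarith
          have h6 : ⌊z.im - (τ - L)⌋₊ ≤ ⌈2 * L⌉₊ := by exact_mod_cast h5
          omega
        · rw [abs_le]; constructor <;> linarith)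
      (fun j _ Y' hY' => by
        rcases Y'.eq_empty_or_nonempty with he | ⟨y, hy⟩
        · rw [he, Finset.sum_empty]
          positivity
        · obtain ⟨b1, b2, b3⟩ := hY' y hy
          obtain ⟨a1, a2, a3, a4, a5⟩ := hY y b1
          have b2' := abs_le.1 b2
          have h6 : T1 ≤ τ - L + (j : ℝ) := by linarith
          refine (hloc (τ - L + (j : ℝ)) h6 Y' (fun z hz => ?_)).trans ?_
          · obtain ⟨c1, c2, c3⟩ := hY' z hz
            obtain ⟨d1, d2, d3, d4, d5⟩ := hY z c1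
            exact ⟨d1, d2, c2⟩
          · apply mul_le_mul_of_nonneg_left _ hC1.le
            apply Real.log_le_log (by linarith)
            linarith)
    refine h1.trans ?_
    rw [Finset.card_range]
    have h7 : ((⌈2 * L⌉₊ + 1 : ℕ) : ℝ) ≤ (2 * C2 + 2 / Real.log 2) * Real.log T := by
      have h8 := Nat.ceil_lt_add_one (show 0 ≤ 2 * L by linarith)
      have h9 : 2 ≤ 2 / Real.log 2 * Real.log T := by
        rw [div_mul_eq_mul_div, le_div_iff₀ hlog2]
        linarith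
      push_cast
      rw [hL] at h8 ⊢
      linarith
    calc ((⌈2 * L⌉₊ + 1 : ℕ) : ℝ) * (C1 * Real.log T) ≤
          ((2 * C2 + 2 / Real.log 2) * Real.log T) * (C1 * Real.log T) :=
          mul_le_mul_of_nonneg_right h7 (by positivity)
      _ = K1 * Real.log T ^ 2 := by rw [hK1]; ring
  have hhigh : ∑ z ∈ (hG.fin (σ + ε) T).toFinset.filter (fun z => ¬ z.im ≤ T4),
      (analyticOrderNatAt G z : ℝ) ≤
      (hG'.fin σ (T + C2 * Real.log T)).toFinset.card * (K1 * Real.log T ^ 2) := by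
    refine cover _ _ (fun z => Nat.cast_nonneg _) (hG'.fin σ (T + C2 * Real.log T)).toFinset
      (fun z w => |w.im - z.im| ≤ C2 * Real.log T) _ (fun z hz => ?_) (fun w hw Y hY => ?_)
    · obtain ⟨h1, h2⟩ := Finset.mem_filter.1 hz
      rw [Set.Finite.mem_toFinset] at h1
      obtain ⟨a1, a2, a3, a4⟩ := h1
      push Not at h2
      obtain ⟨w, hw1, hw2, hw3⟩ := hdic z σ a1 (by linarith) hσ a2
      have h3 := hT3 z.im (by linarith)
      have h4 : Real.log z.im ≤ Real.log T := Real.log_le_log a3 a4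
      have h5 : C2 * Real.log z.im ≤ C2 * Real.log T :=
        mul_le_mul_of_nonneg_left h4 (by linarith)
      have h6 := abs_le.1 hw3
      refine ⟨w, ?_, hw3.trans h5⟩
      rw [Set.Finite.mem_toFinset]
      exact ⟨hw1, hw2.le, by linarith, by linarith⟩
    · refine hwin w.im Y fun z hz => ?_
      obtain ⟨b1, b2⟩ := hY z hz
      obtain ⟨h1, h2⟩ := Finset.mem_filter.1 b1
      rw [Set.Finite.mem_toFinset] at h1
      obtain ⟨a1, a2, a3, a4⟩ := h1
      push Not at h2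
      exact ⟨a1, by linarith, h2, a4, b2⟩
  rw [hsplit]
  have hM1 : M ≤ M / Real.log 2 ^ 2 * Real.log T ^ 2 := by
    rw [div_mul_eq_mul_div, le_div_iff₀ (by positivity)]
    exact mul_le_mul_of_nonneg_left (pow_le_pow_left₀ hlog2.le hlogT 2) hM0
  have hcard := card_le hG' σ (T + C2 * Real.log T)
  have hmono : (cn G' σ (T + C2 * Real.log T) : ℝ) ≤ cn G' σ (T + C * Real.log T) := by
    refine cn_mono hG' σ ?_
    have : C2 * Real.log T ≤ C * Real.log T :=
      mul_le_mul_of_nonneg_right (by rw [hC]; linarith) hlogTp.le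
    linarith
  have hN0 : (0 : ℝ) ≤ cn G' σ (T + C * Real.log T) := Nat.cast_nonneg _
  have h10 : ((hG'.fin σ (T + C2 * Real.log T)).toFinset.card : ℝ) * (K1 * Real.log T ^ 2) ≤
      cn G' σ (T + C * Real.log T) * (K1 * Real.log T ^ 2) :=
    mul_le_mul_of_nonneg_right (hcard.trans hmono) (by positivity)
  have hl2 : 0 ≤ Real.log T ^ 2 := by positivity
  have h11 : (M / Real.log 2 ^ 2 + C2) * Real.log T ^ 2 * cn G' σ (T + C * Real.log T) ≥ 0 := by
    positivity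
  have h12 : (K1 + C2) * Real.log T ^ 2 ≥ 0 := by positivity
  calc _ ≤ M / Real.log 2 ^ 2 * Real.log T ^ 2 +
        cn G' σ (T + C * Real.log T) * (K1 * Real.log T ^ 2) := by linarith
    _ ≤ C * Real.log T ^ 2 * (cn G' σ (T + C * Real.log T) + 1) := by
        rw [hC]
        rw [hC] at h11
        nlinarith

/-! ### translation -/

theorem right_eq {F G : ℂ → ℂ} (σ T : ℝ) (hz : ∀ s : ℂ, 0 < s.im → (F s = 0 ↔ G (s - 1 / 2) = 0))
    (ho : ∀ s : ℂ, 0 < s.im → analyticOrderNatAt F s = analyticOrderNatAt G (s - 1 / 2)) :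
    right F σ T = cn G (σ - 1 / 2) T := by
  unfold right cn
  refine finsum_mem_eq_of_bijOn (fun s => s - 1 / 2) ⟨?_, ?_, ?_⟩ ?_
  · rintro s ⟨h1, h2, h3, h4⟩
    refine ⟨(hz s h3).1 h1, ?_, ?_, ?_⟩
    · rw [Complex.sub_re, half_re]; linarith
    · rw [Complex.sub_im, half_im, sub_zero]; exact h3
    · rw [Complex.sub_im, half_im, sub_zero]; exact h4
  · intro s _ s' _ h
    exact sub_left_injective h
  · rintro z ⟨h1, h2, h3, h4⟩
    have him : (z + 1 / 2 : ℂ).im = z.im := by rw [Complex.add_im, half_im, add_zero]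
    refine ⟨z + 1 / 2, ⟨(hz _ (by rw [him]; exact h3)).2 (by rw [add_sub_cancel_right]; exact h1),
      ?_, by rw [him]; exact h3, by rw [him]; exact h4⟩, add_sub_cancel_right _ _⟩
    rw [Complex.add_re, half_re]
    linarith
  · rintro s ⟨h1, h2, h3, h4⟩
    exact ho s h3

theorem ord_shift (G : ℂ → ℂ) (s : ℂ) :
    analyticOrderAt (fun s => G (s - 1 / 2)) s = analyticOrderAt G (s - 1 / 2) := by
  have h1 : AnalyticAt ℂ (fun s : ℂ => s - 1 / 2) s := by fun_prop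
  have h2 : deriv (fun s : ℂ => s - 1 / 2) s ≠ 0 := by
    rw [deriv_sub_const, deriv_id'']
    exact one_ne_zero
  exact analyticOrderAt_comp_of_deriv_ne_zero (f := G) h1 h2

theorem right_rep {l : List Bool} {F G : ℂ → ℂ} (h : Rep l F G) (σ T : ℝ) :
    right F σ T = cn G (σ - 1 / 2) T := by
  obtain ⟨c, hc, hF⟩ := h.shift
  refine right_eq σ T (fun s _ => ?_) (fun s _ => ?_)
  · rw [hF s, mul_eq_zero]
    exact ⟨fun h => h.resolve_left hc, Or.inr⟩
  · have e : F = (fun _ : ℂ => c) * fun s => G (s - 1 / 2) := by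
      funext s
      exact hF s
    have hg : AnalyticAt ℂ (fun s : ℂ => G (s - 1 / 2)) s :=
      (h.diff.comp (by fun_prop : Differentiable ℂ fun s : ℂ => s - 1 / 2)).analyticAt s
    unfold analyticOrderNatAt
    rw [e, analyticOrderAt_mul analyticAt_const hg, ord_shift,
      (analyticAt_const.analyticOrderAt_eq_zero).2 hc, zero_add]

theorem right_zeta (σ T : ℝ) : right riemannZeta σ T = cn XX (σ - 1 / 2) T := by
  refine right_eq σ T (fun s hs => ⟨zeta_XX hs, XX_zeta'⟩) (fun s hs => ?_)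
  have hev : (fun w : ℂ => XX (w - 1 / 2)) =ᶠ[𝓝 s]
      (fun w => HH (w - 1 / 2)) * fun w => riemannZeta w := by
    have ho : IsOpen {w : ℂ | 0 < w.im} := isOpen_lt continuous_const Complex.continuous_im
    filter_upwards [ho.mem_nhds hs] with w hw
    have hw' : 0 < w.im := hw
    have hw0 : w ≠ 0 := im_ne hw'
    have e : (1 / 2 + (w - 1 / 2) : ℂ) = w := by ring
    have hw1 : (1 - w : ℂ) ≠ 0 := by
      intro h1
      have : (1 - w : ℂ).im = 0 := by rw [h1, Complex.zero_im]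
      rw [Complex.sub_im, Complex.one_im] at this
      linarith
    have hg : Gammaℝ w ≠ 0 := by
      intro h1
      obtain ⟨n, hn⟩ := Complex.Gammaℝ_eq_zero_iff.1 h1
      rw [hn] at hw'
      simp at hw'
    rw [Pi.mul_apply, XX_eq (w - 1 / 2) (by rw [e]; exact hw0) (by rw [e]; exact hw1), e]
    unfold HH
    rw [e, riemannZeta_def_of_ne_zero hw0]
    field_simp
  have him : (s - 1 / 2 : ℂ).im = s.im := by rw [Complex.sub_im, half_im, sub_zero]
  obtain ⟨hHa, hH0⟩ := ha.1 (s - 1 / 2) (by rw [him]; exact hs)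
  have hH1 : AnalyticAt ℂ (fun w : ℂ => HH (w - 1 / 2)) s :=
    hHa.comp_of_eq (by fun_prop : AnalyticAt ℂ (fun w : ℂ => w - 1 / 2) s) rfl
  have hs1 : s ≠ 1 := by
    rintro rfl
    rw [Complex.one_im] at hs
    exact lt_irrefl _ hs
  have hZ : AnalyticAt ℂ riemannZeta s := by
    refine DifferentiableOn.analyticAt (s := {1}ᶜ) ?_ (isOpen_compl_singleton.mem_nhds hs1)
    intro w hw
    exact (differentiableAt_riemannZeta hw).differentiableWithinAt
  unfold analyticOrderNatAt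
  rw [← ord_shift XX s, analyticOrderAt_congr hev, analyticOrderAt_mul hH1 hZ,
    hH1.analyticOrderAt_eq_zero.2 hH0, zero_add]

theorem rep_en {l : List Bool} {F G : ℂ → ℂ} (h : Rep l F G) : En G := ⟨h.diff, h.strip⟩

theorem rep_nil : Rep [] xi XX := by
  have h := rep_false 0
  rw [iteratedDeriv_zero, iteratedDeriv_zero] at h
  exact h

theorem t_CP (h : S_LC) : S_CP := by
  intro l F G hR
  have hlog3 : (1 : ℝ) ≤ Real.log 3 := by
    rw [Real.le_log_iff_exp_le (by norm_num)]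
    linarith [Real.exp_one_lt_d9]
  constructor
  · intro ε hε
    obtain ⟨C, T0, hC, hT0, -, h2⟩ := di l ε hε
    obtain ⟨K, hK, hmain⟩ := comp_main (rep_en hR) (rep_en rep_nil) (h l F G hR) ε hε
      ⟨C, T0, hC, hT0, fun z σ hz hT hσ hre => by
        have hz0 : 0 < z.im := by linarith
        obtain ⟨w, w1, w2, w3⟩ := h2 z σ (by rw [hR.it z (im_ne hz0)]; exact hz) hT hσ hre
          (abs_le.1 (hR.strip z hz)).2
        refine ⟨w, w1, w2, w3.trans ?_⟩
        have h3 : 1 ≤ Real.log z.im := hlog3.trans (Real.log_le_log (by norm_num) (by linarith))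
        nlinarith⟩
    refine ⟨K, hK, fun σ T hσ hT => ?_⟩
    rw [right_rep hR, right_zeta, show σ + ε - 1 / 2 = (σ - 1 / 2) + ε by ring]
    exact hmain (σ - 1 / 2) T (by linarith) hT
  · intro ε hε
    obtain ⟨C, T0, hC, hT0, h1, -⟩ := di l ε hε
    obtain ⟨K, hK, hmain⟩ := comp_main (rep_en rep_nil) (rep_en hR) (h [] xi XX rep_nil) ε hε
      ⟨C, T0, hC, hT0, fun z σ hz hT hσ hre => by
        obtain ⟨w, w1, w2, w3⟩ := h1 z σ hz hT hσ hre
        have hw0 : w ≠ 0 := by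
          rintro rfl
          rw [Complex.zero_re] at w2
          linarith
        exact ⟨w, by rw [← hR.it w hw0]; exact w1, w2, w3⟩⟩
    refine ⟨K, hK, fun σ T hσ hT => ?_⟩
    rw [right_rep hR, right_zeta, show σ + ε - 1 / 2 = (σ - 1 / 2) + ε by ring]
    exact hmain (σ - 1 / 2) T (by linarith) hT

end Pool.Agent.Q177.DJ
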