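import Pool.Agent.Q260.DJ.Stm

/-!
# DJ-VI: vertical integration
-/

set_option autoImplicit false
set_option linter.all false

namespace Pool.Agent.Q177.DJ

open Complex Filter Topology Metric Set
open Pool.Agent.H24R2.JP (HH XX)
open Pool.Agent.Q260.DJ

theorem ev_log (K : ℝ) : ∃ T5 : ℝ, ∀ T : ℝ, T5 ≤ T → K * Real.log T ≤ T := by
  have h1 := (Real.isLittleO_log_id_atTop).bound (show (0 : ℝ) < 1 / (1 + |K|) by positivity)
  obtain ⟨a, ha⟩ := eventually_atTop.1 h1
  refine ⟨max a 1, fun T hT => ?_⟩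
  have hT1 : 1 ≤ T := (le_max_right _ _).trans hT
  have h2 := ha T ((le_max_left _ _).trans hT)
  have h3 : 0 ≤ Real.log T := Real.log_nonneg hT1
  have h0 : ‖id T‖ = T := by
    rw [id, Real.norm_eq_abs, abs_of_nonneg (by linarith : (0 : ℝ) ≤ T)]
  rw [Real.norm_eq_abs, abs_of_nonneg h3, h0] at h2
  have h4 : K ≤ 1 + |K| := by linarith [le_abs_self K]
  calc K * Real.log T ≤ (1 + |K|) * Real.log T := mul_le_mul_of_nonneg_right h4 h3
    _ ≤ (1 + |K|) * (1 / (1 + |K|) * T) := mul_le_mul_of_nonneg_left h2 (by positivity)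
    _ = T := by field_simp

theorem EE_nonneg {C T δ : ℝ} (hC : 1 ≤ C) (hT : 1 ≤ T) : 0 ≤ EE C T δ := by
  unfold EE
  have := Real.rpow_nonneg (Real.log_nonneg hT) (1 - δ / C)
  positivity

theorem EE_mono {C C' T δ : ℝ} (hC : 1 ≤ C) (hCC : C ≤ C') (hT : 1 ≤ Real.log T) (hδ : 0 < δ) :
    EE C T δ ≤ EE C' T δ := by
  unfold EE
  have hC0 : 0 < C' := by linarith
  have h1 : δ / C' ≤ δ / C := div_le_div_of_nonneg_left hδ.le (by linarith) hCC
  have h2 : Real.log T ^ (1 - δ / C) ≤ Real.log T ^ (1 - δ / C') :=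
    Real.rpow_le_rpow_of_exponent_le hT (by linarith)
  have h3 : C / δ ^ 2 ≤ C' / δ ^ 2 := div_le_div_of_nonneg_right hCC (by positivity)
  exact mul_le_mul h3 h2 (Real.rpow_nonneg (by linarith) _) (by positivity)

theorem EE_two {C T S δ : ℝ} (hC : 1 ≤ C) (hT : 0 ≤ Real.log T) (hS : Real.log S ≤ 2 * Real.log T)
    (hS0 : 0 ≤ Real.log S) (hδ : 0 < δ) (hδ2 : δ ≤ 1 / 2) : EE C S δ ≤ 2 * EE C T δ := by
  unfold EE
  have h1 : δ / C ≤ 1 := by
    rw [div_le_one (by linarith)]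
    linarith
  have h2 : 0 ≤ δ / C := by positivity
  have h3 : Real.log S ^ (1 - δ / C) ≤ (2 * Real.log T) ^ (1 - δ / C) :=
    Real.rpow_le_rpow hS0 hS (by linarith)
  rw [Real.mul_rpow (by norm_num) hT] at h3
  have h4 : (2 : ℝ) ^ (1 - δ / C) ≤ 2 := by
    calc (2 : ℝ) ^ (1 - δ / C) ≤ 2 ^ (1 : ℝ) :=
        Real.rpow_le_rpow_of_exponent_le (by norm_num) (by linarith)
      _ = 2 := Real.rpow_one 2
  have h5 : 0 ≤ Real.log T ^ (1 - δ / C) := Real.rpow_nonneg hT _
  have h6 : Real.log S ^ (1 - δ / C) ≤ 2 * Real.log T ^ (1 - δ / C) :=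
    h3.trans (mul_le_mul_of_nonneg_right h4 h5)
  calc C / δ ^ 2 * Real.log S ^ (1 - δ / C) ≤ C / δ ^ 2 * (2 * Real.log T ^ (1 - δ / C)) :=
      mul_le_mul_of_nonneg_left h6 (by positivity)
    _ = 2 * (C / δ ^ 2 * Real.log T ^ (1 - δ / C)) := by ring

/-- the factor `1` or `2 z` -/
noncomputable def az (b : Bool) (z : ℂ) : ℂ := if b then 2 * z else 1

theorem deriv_eq (b : Bool) (F : ℂ → ℂ) {z : ℂ} (hz : z ≠ 0) :
    deriv F z = az b z * Op b F z := by
  unfold az Op
  cases b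
  · simp
  · simp only [if_true]
    field_simp

theorem az_two (b : Bool) {z : ℂ} {v : ℝ} (hv : 0 ≤ v) (hvz : v ≤ ‖z‖) :
    ‖az b (z + I * v)‖ ≤ 2 * ‖az b z‖ := by
  unfold az
  cases b
  · simp
  · simp only [if_true]
    have h1 : ‖z + I * v‖ ≤ ‖z‖ + v := by
      refine (norm_add_le _ _).trans ?_
      rw [norm_mul, Complex.norm_I, one_mul, Complex.norm_real, Real.norm_eq_abs, abs_of_nonneg hv]
    rw [norm_mul, norm_mul, Complex.norm_ofNat]
    linarith

theorem az_one (b : Bool) {z : ℂ} (hz : 1 ≤ ‖z‖) : 1 ≤ ‖az b z‖ := by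
  unfold az
  cases b
  · simp
  · simp only [if_true]
    rw [norm_mul, Complex.norm_ofNat]
    linarith

/-- from the logarithmic form -/
theorem from_log {a b c d E : ℝ} (ha : 0 < a) (hb : 0 < b) (hc : 0 < c) (hd : 0 < d)
    (h : |Real.log (a / b) - Real.log (c / d)| ≤ E) :
    a / b ≤ Real.exp E * (c / d) ∧ c / d ≤ Real.exp E * (a / b) := by
  have h1 := abs_le.1 h
  have hab : 0 < a / b := div_pos ha hb
  have hcd : 0 < c / d := div_pos hc hd
  constructor
  · calc a / b = Real.exp (Real.log (a / b)) := (Real.exp_log hab).symm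
      _ ≤ Real.exp (E + Real.log (c / d)) := Real.exp_le_exp.2 (by linarith)
      _ = _ := by rw [Real.exp_add, Real.exp_log hcd]
  · calc c / d = Real.exp (Real.log (c / d)) := (Real.exp_log hcd).symm
      _ ≤ Real.exp (E + Real.log (a / b)) := Real.exp_le_exp.2 (by linarith)
      _ = _ := by rw [Real.exp_add, Real.exp_log hab]

theorem t_VI (h1 : S_HA) (h2 : S_HB) (h3 : S_LB) : S_VI := by
  intro b F hF hG
  obtain ⟨hHH, -⟩ := h1
  obtain ⟨C3, T3, hC3, hT3, hB, -⟩ := h2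
  obtain ⟨C1, T1, hC1, hT1, hL⟩ := h3 (Op b F) hG
  obtain ⟨k, j, C2, T2, hC2, hT2, hM⟩ := hG.mass
  obtain ⟨A, T4, hA, hT4, hgr⟩ := hF.grow (-(1 / 2)) 6 (by norm_num) (by norm_num)
  set K : ℝ := 2 * (2 * A + j) with hK
  have hK0 : 0 ≤ K := by positivity
  obtain ⟨T5, hT5⟩ := ev_log K
  set C5 : ℝ := (4 * C2 * 2 ^ k + 1) * C2 with hC5
  have hC50 : 0 ≤ C5 := by positivity
  refine ⟨C1 + K + 4 + C5, T1 + T2 + T3 + T4 + |T5| + 3, by linarith, by
    linarith [abs_nonneg T5], ?_⟩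
  intro T θ δ hT hθ0 hθ1 hδ0 hδ2 hNZ
  have habs := abs_nonneg T5
  have hTa : T1 ≤ T := by linarith
  have hTb : T2 ≤ T := by linarith
  have hTc : T3 ≤ T := by linarith
  have hTd : T4 ≤ T := by linarith
  have hTe : T5 ≤ T := by linarith [le_abs_self T5]
  have hTf : 3 ≤ T := by linarith
  have hT0 : 0 < T := by linarith
  have hlog : 1 ≤ Real.log T := by
    rw [Real.le_log_iff_exp_le hT0]
    linarith [Real.exp_one_lt_d9]
  set V : ℝ := K * Real.log T with hV
  have hV0 : 0 ≤ V := by positivity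
  have hVT : V ≤ T := hT5 T hTe
  set x : ℝ := θ + δ with hx
  set z : ℂ := ((x : ℝ) : ℂ) + I * T with hz
  have hzim : z.im = T := by simp [hz]
  have hzre : z.re = x := by simp [hz]
  have hznorm : T ≤ ‖z‖ := by
    have := Complex.abs_im_le_norm z
    rw [hzim, abs_of_nonneg hT0.le] at this
    exact this
  -- the points above z
  have hpt : ∀ v : ℝ, z + I * v = ((x : ℝ) : ℂ) + I * ((T + v : ℝ) : ℂ) := by
    intro v
    rw [hz]
    push_cast
    ring
  have him : ∀ v : ℝ, (z + I * v).im = T + v := by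
    intro v
    rw [hpt]
    simp
  have hre : ∀ v : ℝ, (z + I * v).re = x := by
    intro v
    rw [hpt]
    simp
  have hne : ∀ v : ℝ, 0 ≤ v → z + I * v ≠ 0 := by
    intro v hv h
    have := congrArg Complex.im h
    rw [him, Complex.zero_im] at this
    linarith
  have hlogv : ∀ v : ℝ, 0 ≤ v → v ≤ V → Real.log (T + v) ≤ 2 * Real.log T := by
    intro v hv hvV
    rw [← Real.log_rpow hT0]
    apply Real.log_le_log (by linarith)
    rw [Real.rpow_two]
    nlinarith
  have hlogv0 : ∀ v : ℝ, 0 ≤ v → 0 ≤ Real.log (T + v) := fun v hv =>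
    Real.log_nonneg (by linarith)
  have hNZv : ∀ v : ℝ, 0 ≤ v → v ≤ V → NZ (Op b F) θ (T + v) 4 := by
    intro v hv hvV w hw1 hw2 hw3
    apply hNZ w hw1 hw2
    have e1 : |w.im - T| ≤ |w.im - (T + v)| + |v| := by
      have : w.im - T = (w.im - (T + v)) + v := by ring
      rw [this]
      exact abs_add_le _ _
    rw [abs_of_nonneg hv] at e1
    have e2 : V + 4 ≤ (C1 + K + 4 + C5) * Real.log T := by
      have e3 : (C1 + K + 4 + C5) * Real.log T = V + 4 * Real.log T +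
        (C1 + C5) * Real.log T := by rw [hV]; ring
      have e4 : 0 ≤ (C1 + C5) * Real.log T := by positivity
      rw [e3]
      linarith
    linarith
  -- the bounds from LB
  have hLB : ∀ v : ℝ, 0 ≤ v → v ≤ V →
      Op b F (z + I * v) ≠ 0 ∧
      ‖Op b F (z + I * v)‖ / ‖HH (z + I * v)‖ ≤ Real.exp (EE C1 (T + v) δ) *
        (‖Op b F (3 + I * ((T + v : ℝ) : ℂ))‖ / ‖HH (3 + I * ((T + v : ℝ) : ℂ))‖) ∧
      ‖Op b F (3 + I * ((T + v : ℝ) : ℂ))‖ / ‖HH (3 + I * ((T + v : ℝ) : ℂ))‖ ≤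
        Real.exp (EE C1 (T + v) δ) * (‖Op b F (z + I * v)‖ / ‖HH (z + I * v)‖) := by
    intro v hv hvV
    have e0 := hL (T + v) θ δ (by linarith) hθ0 hθ1 hδ0 hδ2 (hNZv v hv hvV)
    have e1 := e0 (z + I * v) (him v) (by rw [hre]) (by rw [hre]; linarith)
    have e2 := e0 (3 + I * ((T + v : ℝ) : ℂ)) (by simp) (by simp; linarith) (by simp)
    have p1 : 0 < ‖Op b F (z + I * v)‖ := norm_pos_iff.2 e1.1
    have p2 : 0 < ‖HH (z + I * v)‖ := norm_pos_iff.2 (hHH _ (by rw [him]; linarith)).2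
    have p3 : 0 < ‖Op b F (3 + I * ((T + v : ℝ) : ℂ))‖ := norm_pos_iff.2 e2.1
    have p4 : 0 < ‖HH (3 + I * ((T + v : ℝ) : ℂ))‖ :=
      norm_pos_iff.2 (hHH _ (by simp; linarith)).2
    exact ⟨e1.1, from_log p1 p2 p3 p4 e1.2.1⟩
  set Q : ℝ := Real.log T ^ k / T ^ j with hQ
  have hQ0 : 0 < Q := by positivity
  set E2 : ℝ := Real.exp (2 * EE C1 T δ) with hE2
  set B : ℝ := 2 * ‖az b z‖ * (C2 * 2 ^ k * Q) * E2 * ‖HH z‖ with hBd
  have hB0 : 0 ≤ B := by positivity
  -- the derivative on the vertical line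
  have hder : ∀ v : ℝ, 0 ≤ v → v ≤ V → ‖deriv F (z + I * v)‖ ≤ B * Real.exp (-v / 2) := by
    intro v hv hvV
    obtain ⟨e1, e2, -⟩ := hLB v hv hvV
    have p2 : 0 < ‖HH (z + I * v)‖ := norm_pos_iff.2 (hHH _ (by rw [him]; linarith)).2
    have e3 := (hM (T + v) (by linarith)).2
    have e4 : Real.log (T + v) ^ k / (T + v) ^ j ≤ 2 ^ k * Q := by
      rw [hQ, ← mul_div_assoc, ← mul_pow]
      exact div_le_div₀ (by positivity) (pow_le_pow_left₀ (hlogv0 v hv) (hlogv v hv hvV) k)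
        (by positivity) (pow_le_pow_left₀ hT0.le (by linarith) j)
    have e5 : Real.exp (EE C1 (T + v) δ) ≤ E2 :=
      Real.exp_le_exp.2 (EE_two hC1 (by linarith) (hlogv v hv hvV) (hlogv0 v hv) hδ0 hδ2)
    have e6 : ‖Op b F (z + I * v)‖ / ‖HH (z + I * v)‖ ≤ E2 * (C2 * (2 ^ k * Q)) := by
      refine e2.trans (mul_le_mul e5 (e3.trans ?_) (by positivity) (by positivity))
      exact mul_le_mul_of_nonneg_left e4 (by linarith)
    rw [div_le_iff₀ p2] at e6
    have e7 : ‖HH (z + I * v)‖ ≤ Real.exp (-v / 2) * ‖HH z‖ := by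
      have := hB x T v (by linarith) (by linarith) hTc hv
      rw [← hpt] at this
      exact this
    rw [deriv_eq b F (hne v hv), norm_mul]
    calc ‖az b (z + I * v)‖ * ‖Op b F (z + I * v)‖ ≤
        (2 * ‖az b z‖) * (E2 * (C2 * (2 ^ k * Q)) * (Real.exp (-v / 2) * ‖HH z‖)) := by
          refine mul_le_mul (az_two b hv (hvV.trans (hVT.trans hznorm))) (e6.trans ?_)
            (norm_nonneg _) (by positivity)
          exact mul_le_mul_of_nonneg_left e7 (by positivity)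
      _ = B * Real.exp (-v / 2) := by rw [hBd]; ring
  -- mean value inequality
  have hmv : ‖F (z + I * V) - F z‖ ≤ 2 * B := by
    have e1 : ∀ v : ℝ, 0 ≤ v → HasDerivAt (fun u : ℝ => F (z + I * u) - F z)
        (deriv F (z + I * v) * I) v := by
      intro v hv
      have e2 : HasDerivAt F (deriv F (z + I * v)) (z + I * v) :=
        ((hF.an _ (by rw [him]; linarith)).differentiableAt).hasDerivAt
      have e3 : HasDerivAt (fun u : ℝ => z + I * (u : ℂ)) I v := by
        have := ((Complex.ofRealCLM.hasDerivAt (x := v)).const_mul I).const_add z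
        simpa using this
      have e4 := (HasDerivAt.scomp_of_eq v e2 e3 rfl).sub_const (F z)
      rw [smul_eq_mul, mul_comm] at e4
      exact e4
    have e2 := image_norm_le_of_norm_deriv_right_le_deriv_boundary
      (f := fun u : ℝ => F (z + I * u) - F z) (f' := fun v : ℝ => deriv F (z + I * v) * I)
      (a := 0) (b := V) (B := fun v => 2 * B * (1 - Real.exp (-v / 2)))
      (B' := fun v => B * Real.exp (-v / 2))
      (fun v hv => (e1 v hv.1).continuousAt.continuousWithinAt)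
      (fun v hv => (e1 v hv.1).hasDerivWithinAt) (by simp)
      (fun v => by
        have e3 : HasDerivAt (fun v : ℝ => -v / 2) (-1 / 2) v := by
          exact ((hasDerivAt_id v).neg).div_const 2
        have e4 := ((e3.exp).const_sub 1).const_mul (2 * B)
        refine e4.congr_deriv ?_
        ring)
      (fun v hv => by
        rw [norm_mul, Complex.norm_I, mul_one]
        exact hder v hv.1 hv.2.le)
      (x := V) ⟨hV0, le_refl V⟩
    refine e2.trans ?_
    have e3 : 0 ≤ Real.exp (-V / 2) := (Real.exp_pos _).le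
    nlinarith
  -- the top
  have htop : ‖F (z + I * V)‖ ≤ 1 / T ^ j * ‖HH z‖ := by
    have e1 := hgr (z + I * V) (by rw [hre]; linarith) (by rw [hre]; linarith)
      (by rw [him]; linarith)
    rw [him] at e1
    have e7 : ‖HH (z + I * V)‖ ≤ Real.exp (-V / 2) * ‖HH z‖ := by
      have := hB x T V (by linarith) (by linarith) hTc hV0
      rw [← hpt] at this
      exact this
    have e8 : Real.exp (A * Real.log (T + V)) ≤ Real.exp (2 * A * Real.log T) := by
      apply Real.exp_le_exp.2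
      have := mul_le_mul_of_nonneg_left (hlogv V hV0 le_rfl) hA.le
      linarith
    have e9 : Real.exp (2 * A * Real.log T) * Real.exp (-V / 2) = 1 / T ^ j := by
      rw [← Real.exp_add, hV, hK]
      have : 2 * A * Real.log T + -(2 * (2 * A + j) * Real.log T) / 2 = -(j * Real.log T) := by
        ring
      rw [this, Real.exp_neg, Real.exp_nat_mul, Real.exp_log hT0, one_div]
    calc ‖F (z + I * V)‖ ≤ Real.exp (A * Real.log (T + V)) * ‖HH (z + I * V)‖ := e1
      _ ≤ Real.exp (2 * A * Real.log T) * (Real.exp (-V / 2) * ‖HH z‖) :=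
          mul_le_mul e8 e7 (norm_nonneg _) (Real.exp_pos _).le
      _ = 1 / T ^ j * ‖HH z‖ := by rw [← mul_assoc, e9]
  have hHz : 0 < ‖HH z‖ := norm_pos_iff.2 (hHH _ (by rw [hzim]; linarith)).2
  have haz : 1 ≤ ‖az b z‖ := az_one b (by linarith)
  have hE20 : 1 ≤ E2 := Real.one_le_exp (by
    have := EE_nonneg (δ := δ) hC1 (show 1 ≤ T by linarith)
    linarith)
  have hF1 : ‖F z‖ ≤ (4 * C2 * 2 ^ k + 1) * (‖az b z‖ * E2 * Q * ‖HH z‖) := by
    have e1 : ‖F z‖ ≤ ‖F (z + I * V)‖ + ‖F (z + I * V) - F z‖ := by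
      have : F z = F (z + I * V) - (F (z + I * V) - F z) := by ring
      conv_lhs => rw [this]
      exact norm_sub_le _ _
    have e2 : 1 / T ^ j * ‖HH z‖ ≤ ‖az b z‖ * E2 * Q * ‖HH z‖ := by
      apply mul_le_mul_of_nonneg_right _ hHz.le
      have e3 : 1 / T ^ j ≤ Q := by
        rw [hQ]
        exact div_le_div_of_nonneg_right (one_le_pow₀ hlog) (by positivity)
      calc 1 / T ^ j ≤ Q := e3
        _ = 1 * 1 * Q := by ring
        _ ≤ ‖az b z‖ * E2 * Q := by
          apply mul_le_mul_of_nonneg_right _ hQ0.le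
          exact mul_le_mul haz hE20 zero_le_one (by linarith)
    have e3 : 2 * B = 4 * C2 * 2 ^ k * (‖az b z‖ * E2 * Q * ‖HH z‖) := by
      rw [hBd]; ring
    linarith
  -- back to G z
  obtain ⟨g1, -, g3⟩ := hLB 0 le_rfl hV0
  have hz0 : z + I * ((0 : ℝ) : ℂ) = z := by simp
  have hT0' : T + 0 = T := add_zero T
  rw [hz0, hT0'] at g3
  rw [hz0] at g1
  have g4 := (hM T hTb).1
  have g5 : Q ≤ C2 * (Real.exp (EE C1 T δ) * (‖Op b F z‖ / ‖HH z‖)) := by
    rw [div_le_iff₀ (by linarith)] at g4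
    calc Q ≤ ‖Op b F (3 + I * T)‖ / ‖HH (3 + I * T)‖ * C2 := g4
      _ ≤ (Real.exp (EE C1 T δ) * (‖Op b F z‖ / ‖HH z‖)) * C2 :=
          mul_le_mul_of_nonneg_right g3 (by linarith)
      _ = _ := by ring
  have hz00 : z ≠ 0 := by
    have := hne 0 le_rfl
    rwa [hz0] at this
  have hfin : ‖F z‖ ≤ C5 * Real.exp (3 * EE C1 T δ) * ‖deriv F z‖ := by
    rw [deriv_eq b F hz00, norm_mul]
    have e1 : Real.exp (3 * EE C1 T δ) = E2 * Real.exp (EE C1 T δ) := by
      rw [hE2, ← Real.exp_add]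
      congr 1
      ring
    calc ‖F z‖ ≤ (4 * C2 * 2 ^ k + 1) * (‖az b z‖ * E2 * Q * ‖HH z‖) := hF1
      _ ≤ (4 * C2 * 2 ^ k + 1) * (‖az b z‖ * E2 *
          (C2 * (Real.exp (EE C1 T δ) * (‖Op b F z‖ / ‖HH z‖))) * ‖HH z‖) := by
          apply mul_le_mul_of_nonneg_left _ (by positivity)
          apply mul_le_mul_of_nonneg_right _ hHz.le
          apply mul_le_mul_of_nonneg_left g5 (by positivity)
      _ = C5 * (E2 * Real.exp (EE C1 T δ)) * (‖az b z‖ * ‖Op b F z‖) := by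
          rw [hC5]
          field_simp
      _ = _ := by rw [e1]
  refine hfin.trans ?_
  have m1 : C5 ≤ C1 + K + 4 + C5 := by linarith
  have m2 : Real.exp (3 * EE C1 T δ) ≤ Real.exp (3 * EE (C1 + K + 4 + C5) T δ) := by
    apply Real.exp_le_exp.2
    have := EE_mono hC1 (show C1 ≤ C1 + K + 4 + C5 by linarith) hlog hδ0
    linarith
  apply mul_le_mul_of_nonneg_right _ (norm_nonneg _)
  exact mul_le_mul m1 m2 (Real.exp_pos _).le (by linarith)

end Pool.Agent.Q177.DJ
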